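import Mathlib

/-!
# Lemma F0 of `H87_LIFT` (few biased tuples)

`G : S → S → ℝ` with `|G| ≤ 1`; if some letter occurs exactly once among `b^1, …, b^(2q)` then
`|∑ a, ∏ i, G a (b i)| ≤ Δ`.
-/

open Finset

set_option linter.unusedSectionVars false

namespace Pool.Agent.H6.LF

variable {κ S : Type} [Fintype κ] [DecidableEq κ] [Fintype S] [DecidableEq S]

/-- the tuples of `T` agreeing with `y` on `L` -/
def agr (T : Finset (κ → S)) (L : Finset κ) (y : κ → S) : Finset (κ → S) :=
  T.filter (fun z => ∀ j ∈ L, z j = y j)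

theorem mem_agr {T : Finset (κ → S)} {L : Finset κ} {y z : κ → S} :
    z ∈ agr T L y ↔ z ∈ T ∧ ∀ j ∈ L, z j = y j := by
  unfold agr
  rw [Finset.mem_filter]

/-- all letters among the `i ↦ b i` occur at least twice -/
def Paired {p : ℕ} (b : Fin p → S) : Prop := ∀ i, ∃ i', i' ≠ i ∧ b i' = b i

instance {p : ℕ} (b : Fin p → S) : Decidable (Paired b) := by unfold Paired; infer_instance

/-- the tuples obeying the repetition pattern `r` -/
def patt (T : Finset (κ → S)) (r : κ → ℕ → ℕ) (t : ℕ) : Finset (Fin t → (κ → S)) :=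
  (Fintype.piFinset (fun _ : Fin t => T)).filter
    (fun y => ∀ i : Fin t, ∀ j : κ, ∀ i' : Fin t, r j i = i' → i' < i → y i j = y i' j)

theorem patt_count (T : Finset (κ → S)) (σ : ℝ) (hσ : 0 < σ) (V : Finset κ)
    (hT : ∀ P ⊆ V, ∀ β, ((agr T P β).card : ℝ) * σ ^ P.card ≤ T.card) (r : κ → ℕ → ℕ)
    (hr : ∀ j i, r j i < i → j ∈ V) :
    ∀ t : ℕ, ((patt T r t).card : ℝ) *
      ∏ i ∈ range t, σ ^ (univ.filter (fun j => r j i < i)).card ≤ (T.card : ℝ) ^ t := by
  intro t
  induction t with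
  | zero =>
    simp only [Finset.range_zero, Finset.prod_empty, mul_one, pow_zero]
    have : (patt T r 0).card ≤ 1 := by
      refine Finset.card_le_one.2 ?_
      intro a _ b _
      exact Subsingleton.elim _ _
    exact_mod_cast this
  | succ t ih =>
    set P : Finset κ := univ.filter (fun j => r j t < t) with hP
    have hPV : P ⊆ V := by
      intro j hj
      rw [hP, Finset.mem_filter] at hj
      exact hr j t hj.2
    have hmap : ∀ y ∈ patt T r (t + 1), (Fin.init y : Fin t → (κ → S)) ∈ patt T r t := by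
      intro y hy
      unfold patt at hy ⊢
      rw [Finset.mem_filter, Fintype.mem_piFinset] at hy ⊢
      refine ⟨fun i => hy.1 i.castSucc, ?_⟩
      intro i j i' h1 h2
      exact hy.2 i.castSucc j i'.castSucc (by simpa using h1) (by simpa using h2)
    have hfib : ∀ z ∈ patt T r t,
        (((patt T r (t + 1)).filter (fun y => (Fin.init y : Fin t → (κ → S)) = z)).card : ℝ)
          * σ ^ P.card ≤ T.card := by
      intro z hz
      rcases Finset.eq_empty_or_nonempty
        ((patt T r (t + 1)).filter (fun y => (Fin.init y : Fin t → (κ → S)) = z)) with h0 | ⟨y0, hy0⟩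
      · rw [h0]
        simp
      · let β : κ → S := fun j => if h : r j t < t then z ⟨r j t, h⟩ j else y0 (Fin.last t) j
        refine le_trans ?_ (hT P hPV β)
        refine mul_le_mul_of_nonneg_right ?_ (by positivity)
        have hinj : Set.InjOn (fun y : Fin (t + 1) → (κ → S) => y (Fin.last t))
            ((patt T r (t + 1)).filter (fun y => (Fin.init y : Fin t → (κ → S)) = z)) := by
          intro y hy y' hy' h
          rw [Finset.mem_coe, Finset.mem_filter] at hy hy'
          have e1 := Fin.snoc_init_self y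
          have e2 := Fin.snoc_init_self y'
          rw [← e1, ← e2, hy.2, hy'.2]
          have h' : y (Fin.last t) = y' (Fin.last t) := h
          rw [h']
        have hsub : ∀ y ∈ (patt T r (t + 1)).filter (fun y => (Fin.init y : Fin t → (κ → S)) = z),
            y (Fin.last t) ∈ agr T P β := by
          intro y hy
          rw [Finset.mem_filter] at hy
          obtain ⟨hy1, hy2⟩ := hy
          unfold patt at hy1
          rw [Finset.mem_filter, Fintype.mem_piFinset] at hy1
          rw [mem_agr]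
          refine ⟨hy1.1 _, fun j hj => ?_⟩
          rw [hP, Finset.mem_filter] at hj
          have h := hy1.2 (Fin.last t) j (Fin.castSucc ⟨r j t, hj.2⟩) (by simp) (by
            rw [Fin.lt_def]
            simpa using hj.2)
          rw [h]
          have : β j = z ⟨r j t, hj.2⟩ j := by
            simp only [β]
            rw [dif_pos hj.2]
          rw [this, ← hy2]
          rfl
        exact_mod_cast Finset.card_le_card_of_injOn _ hsub hinj
    rw [Finset.prod_range_succ, ← mul_assoc]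
    have hsum : ((patt T r (t + 1)).card : ℝ) = ∑ z ∈ patt T r t,
        (((patt T r (t + 1)).filter (fun y => (Fin.init y : Fin t → (κ → S)) = z)).card : ℝ) := by
      rw [Finset.card_eq_sum_card_fiberwise (f := fun y : Fin (t + 1) → (κ → S) =>
        (Fin.init y : Fin t → (κ → S))) (t := patt T r t) hmap]
      push_cast
      rfl
    have h1 : ((patt T r (t + 1)).card : ℝ) * σ ^ P.card ≤ (patt T r t).card * T.card := by
      rw [hsum, Finset.sum_mul, ← nsmul_eq_mul, ← Finset.sum_const]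
      exact Finset.sum_le_sum hfib
    have h2 : 0 ≤ ∏ i ∈ range t, σ ^ (univ.filter (fun j => r j i < i)).card :=
      Finset.prod_nonneg fun i _ => by positivity
    calc ((patt T r (t + 1)).card : ℝ) * (∏ i ∈ range t, σ ^ (univ.filter (fun j => r j i < i)).card)
          * σ ^ P.card
        = (((patt T r (t + 1)).card : ℝ) * σ ^ P.card) *
          (∏ i ∈ range t, σ ^ (univ.filter (fun j => r j i < i)).card) := by ring
      _ ≤ ((patt T r t).card * T.card) *
          (∏ i ∈ range t, σ ^ (univ.filter (fun j => r j i < i)).card) :=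
          mul_le_mul_of_nonneg_right h1 h2
      _ = T.card * ((patt T r t).card *
          (∏ i ∈ range t, σ ^ (univ.filter (fun j => r j i < i)).card)) := by ring
      _ ≤ T.card * (T.card : ℝ) ^ t := mul_le_mul_of_nonneg_left ih (by positivity)
      _ = (T.card : ℝ) ^ (t + 1) := by ring

/-- first occurrences -/
theorem first_occ {q : ℕ} (b : Fin (2 * q) → S) (hb : Paired b) (r : Fin (2 * q) → Fin (2 * q))
    (_hr1 : ∀ i, b (r i) = b i) (hr2 : ∀ i i', b i' = b i → r i ≤ i') :
    q ≤ (univ.filter (fun i => r i < i)).card := by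
  have hle : ∀ i, r i ≤ i := fun i => hr2 i i rfl
  choose g hg1 hg2 using hb
  have h1 : (univ.filter (fun i => ¬ r i < i)).card ≤ (univ.filter (fun i => r i < i)).card := by
    refine Finset.card_le_card_of_injOn g ?_ ?_
    · intro i hi
      rw [Finset.mem_coe, Finset.mem_filter] at hi
      rw [Finset.mem_coe, Finset.mem_filter]
      refine ⟨Finset.mem_univ _, ?_⟩
      have hi' : r i = i := le_antisymm (hle i) (not_lt.1 hi.2)
      have h2 : r (g i) ≤ i := hr2 (g i) i (hg2 i).symm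
      have h3 : r i ≤ g i := hr2 i (g i) (hg2 i)
      rw [hi'] at h3
      exact lt_of_le_of_lt h2 (lt_of_le_of_ne h3 (hg1 i).symm)
    · intro i hi i' hi' h
      rw [Finset.mem_coe, Finset.mem_filter] at hi hi'
      have e1 : r i = i := le_antisymm (hle i) (not_lt.1 hi.2)
      have e2 : r i' = i' := le_antisymm (hle i') (not_lt.1 hi'.2)
      have hb2 : b i = b i' := by rw [← hg2 i, ← hg2 i', h]
      have h3 : r i ≤ i' := hr2 i i' hb2.symm
      have h4 : r i' ≤ i := hr2 i' i hb2
      rw [e1] at h3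
      rw [e2] at h4
      exact le_antisymm h3 h4
  have h2 := Finset.card_filter_add_card_filter_not (s := (univ : Finset (Fin (2 * q))))
    (fun i => r i < i)
  rw [Finset.card_univ, Fintype.card_fin] at h2
  omega

/-- number of `2q`-tuples of `T` in which all letters of the coordinates in `Q` are paired -/
theorem paired_count (T : Finset (κ → S)) (σ : ℝ) (hσ : 1 ≤ σ) (V : Finset κ)
    (hT : ∀ P ⊆ V, ∀ β, ((agr T P β).card : ℝ) * σ ^ P.card ≤ T.card) (q : ℕ) (Q : Finset κ)
    (hQ : Q ⊆ V) :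
    (((Fintype.piFinset (fun _ : Fin (2 * q) => T)).filter
      (fun y => ∀ j ∈ Q, Paired (fun i => y i j))).card : ℝ) * σ ^ (q * Q.card) ≤
      (T.card : ℝ) ^ (2 * q) * ((2 * q : ℕ) : ℝ) ^ (2 * q * Q.card) := by
  classical
  have hσ0 : 0 < σ := lt_of_lt_of_le one_pos hσ
  let pats : Finset (κ → Fin (2 * q) → Fin (2 * q)) :=
    Fintype.piFinset (fun j => if j ∈ Q then univ else {id})
  let good : (κ → Fin (2 * q) → Fin (2 * q)) → Prop := fun ρ =>
    ∀ j ∈ Q, q ≤ (univ.filter (fun i => ρ j i < i)).card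
  let rr : (κ → Fin (2 * q) → Fin (2 * q)) → κ → ℕ → ℕ := fun ρ j i =>
    if h : i < 2 * q then ((ρ j ⟨i, h⟩ : Fin (2 * q)) : ℕ) else i
  have hcard : (pats.card : ℝ) = ((2 * q : ℕ) : ℝ) ^ (2 * q * Q.card) := by
    have h1 : pats.card = ∏ j : κ, (if j ∈ Q then (2 * q) ^ (2 * q) else 1) := by
      change (Fintype.piFinset (fun j => if j ∈ Q then univ else {id}) :
        Finset (κ → Fin (2 * q) → Fin (2 * q))).card = _
      rw [Fintype.card_piFinset]
      refine Finset.prod_congr rfl fun j _ => ?_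
      by_cases hj : j ∈ Q
      · rw [if_pos hj, if_pos hj, Finset.card_univ, Fintype.card_fun, Fintype.card_fin]
      · rw [if_neg hj, if_neg hj, Finset.card_singleton]
    rw [h1, Finset.prod_ite_mem, Finset.univ_inter, Finset.prod_const, ← pow_mul]
    push_cast
    rfl
  have hsub : (Fintype.piFinset (fun _ : Fin (2 * q) => T)).filter
      (fun y => ∀ j ∈ Q, Paired (fun i => y i j)) ⊆
      (pats.filter good).biUnion (fun ρ => patt T (rr ρ) (2 * q)) := by
    intro y hy
    rw [Finset.mem_filter] at hy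
    have hne : ∀ (j : κ) (i : Fin (2 * q)),
        (univ.filter (fun i' : Fin (2 * q) => y i' j = y i j)).Nonempty :=
      fun j i => ⟨i, by rw [Finset.mem_filter]; exact ⟨Finset.mem_univ _, rfl⟩⟩
    let ρ : κ → Fin (2 * q) → Fin (2 * q) := fun j =>
      if j ∈ Q then fun i => (univ.filter (fun i' : Fin (2 * q) => y i' j = y i j)).min' (hne j i)
      else id
    have hρQ : ∀ j ∈ Q, ∀ i, ρ j i =
        (univ.filter (fun i' : Fin (2 * q) => y i' j = y i j)).min' (hne j i) := by
      intro j hj i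
      simp only [ρ]
      rw [if_pos hj]
    have hρn : ∀ j, j ∉ Q → ∀ i, ρ j i = i := by
      intro j hj i
      simp only [ρ]
      rw [if_neg hj]
      rfl
    have hv : ∀ j ∈ Q, ∀ i, y (ρ j i) j = y i j := by
      intro j hj i
      have h := Finset.min'_mem _ (hne j i)
      rw [← hρQ j hj i, Finset.mem_filter] at h
      exact h.2
    have hm : ∀ j ∈ Q, ∀ i i', y i' j = y i j → ρ j i ≤ i' := by
      intro j hj i i' h
      rw [hρQ j hj i]
      exact Finset.min'_le _ _ (by rw [Finset.mem_filter]; exact ⟨Finset.mem_univ _, h⟩)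
    rw [Finset.mem_biUnion]
    refine ⟨ρ, ?_, ?_⟩
    · rw [Finset.mem_filter]
      refine ⟨?_, ?_⟩
      · rw [Fintype.mem_piFinset]
        intro j
        by_cases hj : j ∈ Q
        · rw [if_pos hj]
          exact Finset.mem_univ _
        · rw [if_neg hj, Finset.mem_singleton]
          funext i
          exact hρn j hj i
      · intro j hj
        exact first_occ (fun i => y i j) (hy.2 j hj) (ρ j) (hv j hj) (hm j hj)
    · unfold patt
      rw [Finset.mem_filter]
      refine ⟨hy.1, ?_⟩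
      intro i j i' h1 h2
      have e : rr ρ j i = ((ρ j i : Fin (2 * q)) : ℕ) := by
        simp only [rr]
        rw [dif_pos i.isLt]
      rw [e] at h1
      have e2 : ρ j i = i' := Fin.ext h1
      by_cases hj : j ∈ Q
      · rw [← hv j hj i, e2]
      · rw [hρn j hj i] at e2
        rw [e2]
  have hone : ∀ ρ ∈ pats.filter good, ((patt T (rr ρ) (2 * q)).card : ℝ) * σ ^ (q * Q.card) ≤
      (T.card : ℝ) ^ (2 * q) := by
    intro ρ hρ
    rw [Finset.mem_filter] at hρ
    have hnQ : ∀ j i, rr ρ j i < i → j ∈ Q := by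
      intro j i hlt
      by_contra hj
      have h1 := Fintype.mem_piFinset.1 hρ.1 j
      rw [if_neg hj, Finset.mem_singleton] at h1
      simp only [rr] at hlt
      rw [h1] at hlt
      by_cases hi : i < 2 * q
      · rw [dif_pos hi] at hlt
        simp at hlt
      · rw [dif_neg hi] at hlt
        exact lt_irrefl _ hlt
    refine le_trans ?_ (patt_count T σ hσ0 V hT (rr ρ) (fun j i h => hQ (hnQ j i h)) (2 * q))
    refine mul_le_mul_of_nonneg_left ?_ (by positivity)
    rw [Finset.prod_pow_eq_pow_sum]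
    refine pow_le_pow_right₀ hσ ?_
    have e1 : ∑ i ∈ range (2 * q), (univ.filter (fun j => rr ρ j i < i)).card
        = ∑ j : κ, ((range (2 * q)).filter (fun i => rr ρ j i < i)).card := by
      simp only [Finset.card_filter]
      exact Finset.sum_comm
    rw [e1]
    have e2 : ∀ j, ((range (2 * q)).filter (fun i => rr ρ j i < i)).card
        = (univ.filter (fun i => ρ j i < i)).card := by
      intro j
      refine (Finset.card_bij (fun (i : Fin (2 * q)) _ => (i : ℕ)) ?_ ?_ ?_).symm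
      · intro i hi
        rw [Finset.mem_filter] at hi ⊢
        refine ⟨Finset.mem_range.2 i.isLt, ?_⟩
        simp only [rr]
        rw [dif_pos i.isLt]
        exact hi.2
      · intro i _ i' _ h
        exact Fin.ext h
      · intro i hi
        rw [Finset.mem_filter, Finset.mem_range] at hi
        refine ⟨⟨i, hi.1⟩, ?_, rfl⟩
        rw [Finset.mem_filter]
        refine ⟨Finset.mem_univ _, ?_⟩
        have h := hi.2
        simp only [rr] at h
        rw [dif_pos hi.1] at h
        exact h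
    calc q * Q.card = ∑ j ∈ Q, q := by rw [Finset.sum_const, smul_eq_mul, mul_comm]
      _ ≤ ∑ j ∈ Q, ((range (2 * q)).filter (fun i => rr ρ j i < i)).card :=
          Finset.sum_le_sum fun j hj => by rw [e2 j]; exact hρ.2 j hj
      _ ≤ ∑ j : κ, ((range (2 * q)).filter (fun i => rr ρ j i < i)).card :=
          Finset.sum_le_sum_of_subset (Finset.subset_univ _)
  have hle : (((Fintype.piFinset (fun _ : Fin (2 * q) => T)).filter
      (fun y => ∀ j ∈ Q, Paired (fun i => y i j))).card : ℝ) ≤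
      ∑ ρ ∈ pats.filter good, ((patt T (rr ρ) (2 * q)).card : ℝ) := by
    have h1 := (Finset.card_le_card hsub).trans Finset.card_biUnion_le
    have h2 : (((Fintype.piFinset (fun _ : Fin (2 * q) => T)).filter
      (fun y => ∀ j ∈ Q, Paired (fun i => y i j))).card : ℝ) ≤
      ((∑ ρ ∈ pats.filter good, (patt T (rr ρ) (2 * q)).card : ℕ) : ℝ) := Nat.cast_le.2 h1
    refine h2.trans (le_of_eq ?_)
    push_cast
    rfl
  calc (((Fintype.piFinset (fun _ : Fin (2 * q) => T)).filter
      (fun y => ∀ j ∈ Q, Paired (fun i => y i j))).card : ℝ) * σ ^ (q * Q.card)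
      ≤ (∑ ρ ∈ pats.filter good, ((patt T (rr ρ) (2 * q)).card : ℝ)) * σ ^ (q * Q.card) :=
        mul_le_mul_of_nonneg_right hle (by positivity)
    _ = ∑ ρ ∈ pats.filter good, ((patt T (rr ρ) (2 * q)).card : ℝ) * σ ^ (q * Q.card) :=
        Finset.sum_mul _ _ _
    _ ≤ ∑ ρ ∈ pats.filter good, (T.card : ℝ) ^ (2 * q) := Finset.sum_le_sum hone
    _ = ((pats.filter good).card : ℝ) * (T.card : ℝ) ^ (2 * q) := by
        rw [Finset.sum_const, nsmul_eq_mul]
    _ ≤ (pats.card : ℝ) * (T.card : ℝ) ^ (2 * q) := by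
        refine mul_le_mul_of_nonneg_right ?_ (by positivity)
        exact_mod_cast Finset.card_filter_le _ _
    _ = (T.card : ℝ) ^ (2 * q) * ((2 * q : ℕ) : ℝ) ^ (2 * q * Q.card) := by
        rw [hcard, mul_comm]

/-- the correlation of the columns `b` -/
noncomputable def Gam (G : S → S → ℝ) {p : ℕ} (b : Fin p → S) : ℝ := ∑ a, ∏ i, G a (b i)

/-- moments of the character sums of a spread set -/
theorem moment (G : κ → S → S → ℝ) (hG : ∀ j a b, |G j a b| ≤ 1) (q : ℕ) (Δ Δ2 σ : ℝ) (hΔ : 0 ≤ Δ)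
    (hW : ∀ (j : κ) (b : Fin (2 * q) → S), ¬ Paired b → |Gam (G j) b| ≤ Δ)
    (hσ : 1 ≤ σ) (hn : (Fintype.card S : ℝ) * ((2 * q : ℕ) : ℝ) ^ (2 * q) ≤ Δ2 * σ ^ q)
    (T : Finset (κ → S)) (V : Finset κ)
    (hT : ∀ P ⊆ V, ∀ β, ((agr T P β).card : ℝ) * σ ^ P.card ≤ T.card) :
    ∑ y ∈ Fintype.piFinset (fun _ : Fin (2 * q) => T), ∏ j ∈ V, |Gam (G j) (fun i => y i j)| ≤
      (T.card : ℝ) ^ (2 * q) * (Δ + Δ2) ^ V.card := by
  classical
  set n : ℝ := (Fintype.card S : ℝ) with hnn
  have hn0 : 0 ≤ n := by positivity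
  have hσ0 : 0 < σ := lt_of_lt_of_le one_pos hσ
  have hΓ : ∀ (j : κ) (b : Fin (2 * q) → S), |Gam (G j) b| ≤ (if Paired b then n else 0) + Δ := by
    intro j b
    by_cases hb : Paired b
    · rw [if_pos hb]
      have : |Gam (G j) b| ≤ n := by
        unfold Gam
        refine (Finset.abs_sum_le_sum_abs _ _).trans ?_
        have h1 : ∀ a ∈ (univ : Finset S), |∏ i, G j a (b i)| ≤ 1 := by
          intro a _
          rw [Finset.abs_prod]
          exact Finset.prod_le_one (fun i _ => abs_nonneg _) (fun i _ => hG _ _ _)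
        calc ∑ a, |∏ i, G j a (b i)| ≤ ∑ _a : S, (1 : ℝ) := Finset.sum_le_sum h1
          _ = n := by simp [hnn]
      linarith
    · rw [if_neg hb, zero_add]
      exact hW j b hb
  have hexp : ∀ y : Fin (2 * q) → κ → S, ∏ j ∈ V, |Gam (G j) (fun i => y i j)| ≤
      ∑ Q ∈ V.powerset, (∏ j ∈ Q, (if Paired (fun i => y i j) then n else 0)) * Δ ^ (V \ Q).card := by
    intro y
    calc ∏ j ∈ V, |Gam (G j) (fun i => y i j)|
        ≤ ∏ j ∈ V, ((if Paired (fun i => y i j) then n else 0) + Δ) :=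
          Finset.prod_le_prod (fun j _ => abs_nonneg _) (fun j _ => hΓ _ _)
      _ = _ := by
          rw [Finset.prod_add]
          refine Finset.sum_congr rfl fun Q _ => ?_
          rw [Finset.prod_const]
  have hprod : ∀ (Q : Finset κ) (y : Fin (2 * q) → κ → S),
      (∏ j ∈ Q, (if Paired (fun i => y i j) then n else 0)) =
        if (∀ j ∈ Q, Paired (fun i => y i j)) then n ^ Q.card else 0 := by
    intro Q y
    by_cases h : ∀ j ∈ Q, Paired (fun i => y i j)
    · rw [if_pos h, ← Finset.prod_const]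
      exact Finset.prod_congr rfl fun j hj => if_pos (h j hj)
    · rw [if_neg h]
      push Not at h
      obtain ⟨j, hj, hj2⟩ := h
      exact Finset.prod_eq_zero hj (if_neg hj2)
  have hQ : ∀ Q ∈ V.powerset,
      ∑ y ∈ Fintype.piFinset (fun _ : Fin (2 * q) => T),
        (∏ j ∈ Q, (if Paired (fun i => y i j) then n else 0)) * Δ ^ (V \ Q).card ≤
      (T.card : ℝ) ^ (2 * q) * (Δ2 ^ Q.card * Δ ^ (V \ Q).card) := by
    intro Q hQV
    rw [Finset.mem_powerset] at hQV
    rw [← Finset.sum_mul]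
    have h1 : ∑ y ∈ Fintype.piFinset (fun _ : Fin (2 * q) => T),
        (∏ j ∈ Q, (if Paired (fun i => y i j) then n else 0)) =
        (((Fintype.piFinset (fun _ : Fin (2 * q) => T)).filter
          (fun y => ∀ j ∈ Q, Paired (fun i => y i j))).card : ℝ) * n ^ Q.card := by
      rw [Finset.sum_congr rfl fun y _ => hprod Q y, ← Finset.sum_filter, Finset.sum_const,
        nsmul_eq_mul]
    have h2 := paired_count T σ hσ V hT q Q hQV
    have h3 : (((Fintype.piFinset (fun _ : Fin (2 * q) => T)).filter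
          (fun y => ∀ j ∈ Q, Paired (fun i => y i j))).card : ℝ) * n ^ Q.card ≤
          (T.card : ℝ) ^ (2 * q) * Δ2 ^ Q.card := by
      have hσq : 0 < σ ^ (q * Q.card) := by positivity
      refine le_of_mul_le_mul_right ?_ hσq
      calc (((Fintype.piFinset (fun _ : Fin (2 * q) => T)).filter
          (fun y => ∀ j ∈ Q, Paired (fun i => y i j))).card : ℝ) * n ^ Q.card * σ ^ (q * Q.card)
          = ((((Fintype.piFinset (fun _ : Fin (2 * q) => T)).filter
          (fun y => ∀ j ∈ Q, Paired (fun i => y i j))).card : ℝ) * σ ^ (q * Q.card)) * n ^ Q.card := by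
            ring
        _ ≤ ((T.card : ℝ) ^ (2 * q) * ((2 * q : ℕ) : ℝ) ^ (2 * q * Q.card)) * n ^ Q.card :=
            mul_le_mul_of_nonneg_right h2 (by positivity)
        _ = (T.card : ℝ) ^ (2 * q) * (n * ((2 * q : ℕ) : ℝ) ^ (2 * q)) ^ Q.card := by
            rw [mul_pow, ← pow_mul]
            ring
        _ ≤ (T.card : ℝ) ^ (2 * q) * (Δ2 * σ ^ q) ^ Q.card := by
            refine mul_le_mul_of_nonneg_left ?_ (by positivity)
            exact pow_le_pow_left₀ (by positivity) hn _
        _ = (T.card : ℝ) ^ (2 * q) * Δ2 ^ Q.card * σ ^ (q * Q.card) := by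
            rw [mul_pow, ← pow_mul]
            ring
    rw [h1]
    calc _ ≤ ((T.card : ℝ) ^ (2 * q) * Δ2 ^ Q.card) * Δ ^ (V \ Q).card :=
          mul_le_mul_of_nonneg_right h3 (by positivity)
      _ = _ := by ring
  calc ∑ y ∈ Fintype.piFinset (fun _ : Fin (2 * q) => T), ∏ j ∈ V, |Gam (G j) (fun i => y i j)|
      ≤ ∑ y ∈ Fintype.piFinset (fun _ : Fin (2 * q) => T), ∑ Q ∈ V.powerset,
        (∏ j ∈ Q, (if Paired (fun i => y i j) then n else 0)) * Δ ^ (V \ Q).card :=
        Finset.sum_le_sum fun y _ => hexp y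
    _ = ∑ Q ∈ V.powerset, ∑ y ∈ Fintype.piFinset (fun _ : Fin (2 * q) => T),
        (∏ j ∈ Q, (if Paired (fun i => y i j) then n else 0)) * Δ ^ (V \ Q).card :=
        Finset.sum_comm
    _ ≤ ∑ Q ∈ V.powerset, (T.card : ℝ) ^ (2 * q) * (Δ2 ^ Q.card * Δ ^ (V \ Q).card) :=
        Finset.sum_le_sum hQ
    _ = (T.card : ℝ) ^ (2 * q) * (Δ + Δ2) ^ V.card := by
        rw [← Finset.mul_sum, add_comm Δ Δ2, ← Finset.prod_const, Finset.prod_add]
        congr 1
        refine Finset.sum_congr rfl fun Q _ => ?_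
        rw [Finset.prod_const, Finset.prod_const]

/-- number of tuples with prescribed letters on `V` -/
theorem card_fix (V : Finset κ) (β : κ → S) :
    (univ.filter (fun x : κ → S => ∀ j ∈ V, x j = β j)).card = Fintype.card S ^ Vᶜ.card := by
  classical
  have h1 : univ.filter (fun x : κ → S => ∀ j ∈ V, x j = β j)
      = Fintype.piFinset fun j => if j ∈ V then ({β j} : Finset S) else univ := by
    ext x
    simp only [Finset.mem_filter, Finset.mem_univ, true_and, Fintype.mem_piFinset]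
    constructor
    · intro h j
      by_cases hj : j ∈ V
      · simp [hj, h j hj]
      · simp [hj]
    · intro h j hj
      have := h j
      simpa [hj] using this
  rw [h1, Fintype.card_piFinset]
  have h2 : ∀ j : κ, (if j ∈ V then ({β j} : Finset S) else univ).card
      = if j ∈ V then 1 else Fintype.card S := by
    intro j
    by_cases hj : j ∈ V
    · simp [hj]
    · simp [hj, Finset.card_univ]
  rw [Finset.prod_congr rfl fun j _ => h2 j, Finset.prod_ite, Finset.prod_const_one, one_mul,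
    Finset.prod_const]
  congr 1
  congr 1
  ext j
  simp

/-- sub-probability Jensen -/
theorem jensen {α : Type} (s : Finset α) (f z : α → ℝ) (hf : ∀ x ∈ s, 0 ≤ f x)
    (hz : ∀ x ∈ s, 0 ≤ z x) (h1 : ∑ x ∈ s, f x ≤ 1) (p : ℕ) (hp : 0 < p) :
    (∑ x ∈ s, f x * z x) ^ p ≤ ∑ x ∈ s, f x * z x ^ p := by
  have hs0 : 0 ≤ ∑ x ∈ s, f x := Finset.sum_nonneg hf
  rcases hs0.eq_or_lt with h0 | h0
  · have h2 : ∀ x ∈ s, f x = 0 := by
      intro x hx
      exact (Finset.sum_eq_zero_iff_of_nonneg hf).1 h0.symm x hx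
    have e1 : ∑ x ∈ s, f x * z x = 0 := Finset.sum_eq_zero fun x hx => by rw [h2 x hx, zero_mul]
    rw [e1, zero_pow (by omega)]
    exact Finset.sum_nonneg fun x hx => mul_nonneg (hf x hx) (pow_nonneg (hz x hx) _)
  · set c := ∑ x ∈ s, f x with hc
    have h3 := Real.pow_arith_mean_le_arith_mean_pow s (fun x => f x / c) z
      (fun x hx => div_nonneg (hf x hx) hs0) (by rw [← Finset.sum_div, ← hc, div_self h0.ne']) hz p
    have e1 : ∑ x ∈ s, f x / c * z x = (∑ x ∈ s, f x * z x) / c := by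
      rw [Finset.sum_div]
      exact Finset.sum_congr rfl fun x _ => by ring
    have e2 : ∑ x ∈ s, f x / c * z x ^ p = (∑ x ∈ s, f x * z x ^ p) / c := by
      rw [Finset.sum_div]
      exact Finset.sum_congr rfl fun x _ => by ring
    rw [e1, e2, div_pow, div_le_div_iff₀ (by positivity) h0] at h3
    have h4 : 0 ≤ ∑ x ∈ s, f x * z x ^ p :=
      Finset.sum_nonneg fun x hx => mul_nonneg (hf x hx) (pow_nonneg (hz x hx) _)
    have h5 : c ^ p ≤ c := by
      calc c ^ p ≤ c ^ 1 := pow_le_pow_of_le_one hs0 h1 hp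
        _ = c := pow_one c
    have h6 : (∑ x ∈ s, f x * z x) ^ p * c ≤ (∑ x ∈ s, f x * z x ^ p) * c :=
      h3.trans (mul_le_mul_of_nonneg_left h5 h4)
    exact le_of_mul_le_mul_right h6 h0

/-- the `p`-th moment of `x ↦ ∑ y ∈ T, ∏ j ∈ V, G j (x j) (y j)` -/
theorem moment_eq (G : κ → S → S → ℝ) (p : ℕ) (T : Finset (κ → S)) (V : Finset κ) :
    ∑ x : κ → S, (∑ y ∈ T, ∏ j ∈ V, G j (x j) (y j)) ^ p =
      (Fintype.card S : ℝ) ^ Vᶜ.card *
        ∑ y ∈ Fintype.piFinset (fun _ : Fin p => T), ∏ j ∈ V, Gam (G j) (fun i => y i j) := by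
  classical
  have h1 : ∀ x : κ → S, (∑ y ∈ T, ∏ j ∈ V, G j (x j) (y j)) ^ p =
      ∑ y ∈ Fintype.piFinset (fun _ : Fin p => T), ∏ i : Fin p, ∏ j ∈ V, G j (x j) (y i j) := by
    intro x
    have h := Finset.prod_univ_sum (ι := Fin p) (fun _ => T)
      (fun (_ : Fin p) (y : κ → S) => ∏ j ∈ V, G j (x j) (y j))
    rw [Finset.prod_const, Finset.card_univ, Fintype.card_fin] at h
    exact h
  rw [Finset.sum_congr rfl fun x _ => h1 x, Finset.sum_comm, Finset.mul_sum]
  refine Finset.sum_congr rfl fun y _ => ?_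
  have h2 : ∀ x : κ → S, ∏ i : Fin p, ∏ j ∈ V, G j (x j) (y i j) =
      ∏ j, (if j ∈ V then ∏ i, G j (x j) (y i j) else 1) := by
    intro x
    rw [Finset.prod_comm, Finset.prod_ite_mem, Finset.univ_inter]
  rw [Finset.sum_congr rfl fun x _ => h2 x]
  have h3 := Finset.prod_univ_sum (ι := κ) (fun _ => (univ : Finset S))
    (fun (j : κ) (s : S) => if j ∈ V then ∏ i, G j s (y i j) else 1)
  rw [Fintype.piFinset_univ] at h3
  rw [← h3]
  have h4 : ∀ j : κ, (∑ s : S, if j ∈ V then ∏ i, G j s (y i j) else 1) =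
      (if j ∈ V then Gam (G j) (fun i => y i j) else 1) * (if j ∈ V then 1 else (Fintype.card S : ℝ)) := by
    intro j
    by_cases hj : j ∈ V
    · simp [hj, Gam]
    · simp [hj]
  rw [Finset.prod_congr rfl fun j _ => h4 j, Finset.prod_mul_distrib, Finset.prod_ite_mem,
    Finset.univ_inter, mul_comm]
  congr 1
  rw [Finset.prod_ite, Finset.prod_const_one, one_mul, Finset.prod_const]
  congr 1
  congr 1
  ext j
  simp

/-- **Lemma F0** -/
theorem F0 (G : κ → S → S → ℝ) (hG : ∀ j a b, |G j a b| ≤ 1) (q M : ℕ) (hq : 0 < q)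
    (Δ Δ2 σ h w a : ℝ) (hΔ : 0 ≤ Δ) (hΔ2 : 0 < Δ2)
    (hW : ∀ (j : κ) (b : Fin (2 * q) → S), ¬ Paired b → |Gam (G j) b| ≤ Δ)
    (hσ : 1 ≤ σ) (hn : (Fintype.card S : ℝ) * ((2 * q : ℕ) : ℝ) ^ (2 * q) ≤ Δ2 * σ ^ q)
    (hw : 1 < w) (hh : (Δ + Δ2) * w ^ (2 * q * M) ≤ h) (ha : 1 ≤ a)
    (hM : (Fintype.card S : ℝ) ≤ a ^ M) (f : (κ → S) → ℝ)
    (hf : ∀ (L : Finset κ) (β : κ → S),
      (∑ x ∈ univ.filter (fun x : κ → S => ∀ j ∈ L, x j = β j), |f x|) * h ^ L.card ≤ 1) :
    ((univ.filter (fun y : κ → S =>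
      1 ≤ w ^ Fintype.card κ * ∑ x, f x * ∏ j, G j (x j) (y j))).card : ℝ) ≤
      (a * σ) ^ Fintype.card κ := by
  classical
  set k := Fintype.card κ with hk
  set T : Finset (κ → S) := univ.filter (fun y : κ → S =>
      1 ≤ w ^ k * ∑ x, f x * ∏ j, G j (x j) (y j)) with hTdef
  set n : ℝ := (Fintype.card S : ℝ) with hnn
  have hσ0 : 0 < σ := lt_of_lt_of_le one_pos hσ
  have ha0 : 0 < a := lt_of_lt_of_le one_pos ha
  have hw0 : 0 < w := one_pos.trans hw
  have hDD : 0 < Δ + Δ2 := by linarith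
  have hh0 : 0 < h := lt_of_lt_of_le (by positivity) hh
  rcases T.eq_empty_or_nonempty with hT0 | hT0
  · rw [hT0, Finset.card_empty, Nat.cast_zero]
    positivity
  rcases isEmpty_or_nonempty κ with hκ | hκ
  · have e1 : T.card ≤ 1 := Finset.card_le_one.2 fun _ _ _ _ => Subsingleton.elim _ _
    have e2 : k = 0 := by rw [hk]; exact Fintype.card_eq_zero
    rw [e2, pow_zero]
    exact_mod_cast e1
  -- choice of L and y0
  obtain ⟨⟨L, y0⟩, hLy, hmax⟩ := Finset.exists_max_image ((univ : Finset (Finset κ)) ×ˢ T)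
    (fun P => ((agr T P.1 P.2).card : ℝ) * σ ^ P.1.card) (Finset.univ_nonempty.product hT0)
  rw [Finset.mem_product] at hLy
  have hy0 : y0 ∈ T := hLy.2
  have hmax' : ∀ (L' : Finset κ), ∀ y ∈ T, ((agr T L' y).card : ℝ) * σ ^ L'.card ≤
      ((agr T L y0).card : ℝ) * σ ^ L.card := fun L' y hy =>
    hmax (L', y) (Finset.mem_product.2 ⟨Finset.mem_univ _, hy⟩)
  set T' : Finset (κ → S) := agr T L y0 with hT'def
  set V : Finset κ := Lᶜ with hV
  have hy0' : y0 ∈ T' := by
    rw [hT'def, mem_agr]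
    exact ⟨hy0, fun _ _ => rfl⟩
  have hT'pos : 0 < (T'.card : ℝ) := by
    exact_mod_cast Finset.card_pos.2 ⟨y0, hy0'⟩
  have hLV : L.card + V.card = k := by
    rw [hV, Finset.card_add_card_compl, hk]
  have hspread : ∀ P ⊆ V, ∀ β, ((agr T' P β).card : ℝ) * σ ^ P.card ≤ T'.card := by
    intro P hP β
    rcases (agr T' P β).eq_empty_or_nonempty with h0 | ⟨y1, hy1⟩
    · rw [h0, Finset.card_empty, Nat.cast_zero, zero_mul]
      positivity
    · rw [mem_agr, hT'def, mem_agr] at hy1
      have hdisj : Disjoint L P := by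
        rw [Finset.disjoint_left]
        intro j hj hj2
        have := hP hj2
        rw [hV, Finset.mem_compl] at this
        exact this hj
      have h2 := hmax' (L ∪ P) y1 hy1.1.1
      rw [Finset.card_union_of_disjoint hdisj, pow_add] at h2
      have h3 : (agr T' P β).card ≤ (agr T (L ∪ P) y1).card := by
        refine Finset.card_le_card ?_
        intro z hz
        rw [mem_agr, hT'def, mem_agr] at hz
        rw [mem_agr]
        refine ⟨hz.1.1, fun j hj => ?_⟩
        rw [Finset.mem_union] at hj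
        rcases hj with hj | hj
        · rw [hz.1.2 j hj, hy1.1.2 j hj]
        · rw [hz.2 j hj, hy1.2 j hj]
      have h4 : ((agr T' P β).card : ℝ) ≤ ((agr T (L ∪ P) y1).card : ℝ) := by exact_mod_cast h3
      have hσL : 0 < σ ^ L.card := by positivity
      refine le_of_mul_le_mul_right ?_ hσL
      calc ((agr T' P β).card : ℝ) * σ ^ P.card * σ ^ L.card
          = ((agr T' P β).card : ℝ) * (σ ^ L.card * σ ^ P.card) := by ring
        _ ≤ ((agr T (L ∪ P) y1).card : ℝ) * (σ ^ L.card * σ ^ P.card) :=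
            mul_le_mul_of_nonneg_right h4 (by positivity)
        _ ≤ (T'.card : ℝ) * σ ^ L.card := h2
  have hTT' : (T.card : ℝ) ≤ (T'.card : ℝ) * σ ^ L.card := by
    have h2 := hmax' ∅ y0 hy0
    rw [Finset.card_empty, pow_zero, mul_one] at h2
    have h3 : agr T ∅ y0 = T := by
      ext z
      rw [mem_agr]
      simp
    rw [h3] at h2
    exact h2
  have hT'n : (T'.card : ℝ) ≤ n ^ V.card := by
    have h2 : T' ⊆ univ.filter (fun x : κ → S => ∀ j ∈ L, x j = y0 j) := by
      intro z hz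
      rw [hT'def, mem_agr] at hz
      rw [Finset.mem_filter]
      exact ⟨Finset.mem_univ _, hz.2⟩
    have h3 := Finset.card_le_card h2
    rw [card_fix] at h3
    rw [hnn, hV]
    exact_mod_cast h3
  -- the moment
  have hmom := moment G hG q Δ Δ2 σ hΔ hW hσ hn T' V hspread
  set Z : (κ → S) → ℝ := fun x => ∑ y ∈ T', ∏ j ∈ V, G j (x j) (y j) with hZ
  have hZfix : ∀ x x' : κ → S, (∀ j ∈ V, x' j = x j) → Z x' = Z x := by
    intro x x' hx
    simp only [hZ]
    refine Finset.sum_congr rfl fun y _ => Finset.prod_congr rfl fun j hj => ?_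
    rw [hx j hj]
  -- (1)
  have h1 : (T'.card : ℝ) ≤ w ^ k * ∑ x, |f x| * |Z x| := by
    have e1 : (T'.card : ℝ) ≤ ∑ y ∈ T', w ^ k * ∑ x, f x * ∏ j, G j (x j) (y j) := by
      calc (T'.card : ℝ) = ∑ _y ∈ T', (1 : ℝ) := by rw [Finset.sum_const, nsmul_eq_mul, mul_one]
        _ ≤ _ := by
            refine Finset.sum_le_sum fun y hy => ?_
            rw [hT'def, mem_agr, hTdef, Finset.mem_filter] at hy
            exact hy.1.2
    refine e1.trans ?_
    rw [← Finset.mul_sum]
    refine mul_le_mul_of_nonneg_left ?_ (by positivity)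
    rw [Finset.sum_comm]
    refine Finset.sum_le_sum fun x _ => ?_
    have e2 : ∀ y ∈ T', f x * ∏ j, G j (x j) (y j)
        = (f x * ∏ j ∈ L, G j (x j) (y0 j)) * ∏ j ∈ V, G j (x j) (y j) := by
      intro y hy
      rw [hT'def, mem_agr] at hy
      rw [hV, mul_assoc, ← Finset.prod_mul_prod_compl L (fun j => G j (x j) (y j))]
      congr 2
      exact Finset.prod_congr rfl fun j hj => by rw [hy.2 j hj]
    rw [Finset.sum_congr rfl e2, ← Finset.mul_sum]
    refine (le_abs_self _).trans ?_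
    rw [abs_mul, abs_mul, Finset.abs_prod]
    have e3 : ∏ j ∈ L, |G j (x j) (y0 j)| ≤ 1 :=
      Finset.prod_le_one (fun _ _ => abs_nonneg _) (fun _ _ => hG _ _ _)
    calc |f x| * (∏ j ∈ L, |G j (x j) (y0 j)|) * |∑ y ∈ T', ∏ j ∈ V, G j (x j) (y j)|
        ≤ |f x| * 1 * |∑ y ∈ T', ∏ j ∈ V, G j (x j) (y j)| := by
          refine mul_le_mul_of_nonneg_right ?_ (abs_nonneg _)
          exact mul_le_mul_of_nonneg_left e3 (abs_nonneg _)
      _ = |f x| * |Z x| := by rw [mul_one]
  -- (2)
  have hf1 : ∑ x, |f x| ≤ 1 := by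
    have h2 := hf ∅ y0
    simpa using h2
  have h2 : (∑ x, |f x| * |Z x|) ^ (2 * q) ≤ ∑ x, |f x| * (Z x) ^ (2 * q) := by
    have h3 := jensen (univ : Finset (κ → S)) (fun x => |f x|) (fun x => |Z x|)
      (fun x _ => abs_nonneg _) (fun x _ => abs_nonneg _) hf1 (2 * q) (by omega)
    refine h3.trans (le_of_eq ?_)
    refine Finset.sum_congr rfl fun x _ => ?_
    rw [pow_mul, sq_abs, ← pow_mul]
  -- (3)
  have hcardL : Vᶜ.card = L.card := by rw [hV, compl_compl]
  have h3 : n ^ L.card * ∑ x, |f x| * (Z x) ^ (2 * q) =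
      ∑ x, (∑ x1 ∈ univ.filter (fun x1 : κ → S => ∀ j ∈ V, x1 j = x j), |f x1|) *
        (Z x) ^ (2 * q) := by
    have e1 : ∀ x : κ → S, (∑ x1 ∈ univ.filter (fun x1 : κ → S => ∀ j ∈ V, x1 j = x j), |f x1|) *
        (Z x) ^ (2 * q) = ∑ x1, if (∀ j ∈ V, x1 j = x j) then |f x1| * (Z x1) ^ (2 * q) else 0 := by
      intro x
      rw [Finset.sum_mul, Finset.sum_filter]
      refine Finset.sum_congr rfl fun x1 _ => ?_
      by_cases h : ∀ j ∈ V, x1 j = x j
      · rw [if_pos h, if_pos h, hZfix x x1 h]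
      · rw [if_neg h, if_neg h]
    rw [Finset.sum_congr rfl fun x _ => e1 x, Finset.sum_comm, Finset.mul_sum]
    refine Finset.sum_congr rfl fun x1 _ => ?_
    rw [← Finset.sum_filter, Finset.sum_const, nsmul_eq_mul]
    congr 1
    have e2 : univ.filter (fun x : κ → S => ∀ j ∈ V, x1 j = x j)
        = univ.filter (fun x : κ → S => ∀ j ∈ V, x j = x1 j) := by
      ext x
      simp only [Finset.mem_filter, Finset.mem_univ, true_and]
      exact ⟨fun h j hj => (h j hj).symm, fun h j hj => (h j hj).symm⟩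
    rw [e2, card_fix, hcardL, hnn]
    push_cast
    rfl
  -- (4)
  have h4 := moment_eq G (2 * q) T' V
  have h5 : n ^ L.card * (∑ x, |f x| * (Z x) ^ (2 * q)) * h ^ V.card ≤
      n ^ L.card * ((T'.card : ℝ) ^ (2 * q) * (Δ + Δ2) ^ V.card) := by
    rw [h3, Finset.sum_mul]
    calc ∑ x, (∑ x1 ∈ univ.filter (fun x1 : κ → S => ∀ j ∈ V, x1 j = x j), |f x1|) *
          (Z x) ^ (2 * q) * h ^ V.card
        ≤ ∑ x, (Z x) ^ (2 * q) := by
          refine Finset.sum_le_sum fun x _ => ?_
          have e1 := hf V x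
          have e2 : 0 ≤ (Z x) ^ (2 * q) := by
            rw [pow_mul]
            positivity
          calc _ = ((∑ x1 ∈ univ.filter (fun x1 : κ → S => ∀ j ∈ V, x1 j = x j), |f x1|) *
              h ^ V.card) * (Z x) ^ (2 * q) := by ring
            _ ≤ 1 * (Z x) ^ (2 * q) := mul_le_mul_of_nonneg_right e1 e2
            _ = _ := one_mul _
      _ = n ^ L.card * ∑ y ∈ Fintype.piFinset (fun _ : Fin (2 * q) => T'),
            ∏ j ∈ V, Gam (G j) (fun i => y i j) := by
          rw [← hcardL, hnn]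
          exact h4
      _ ≤ n ^ L.card * ((T'.card : ℝ) ^ (2 * q) * (Δ + Δ2) ^ V.card) := by
          refine mul_le_mul_of_nonneg_left ?_ (by positivity)
          refine le_trans (Finset.sum_le_sum fun y _ => ?_) hmom
          rw [← Finset.abs_prod]
          exact le_abs_self _
  -- conclusion on exponents
  have hn1 : 0 < n := by
    rw [hnn]
    exact_mod_cast Fintype.card_pos_iff.2 ⟨y0 hκ.some⟩
  have h6 : h ^ V.card ≤ w ^ (2 * q * k) * (Δ + Δ2) ^ V.card := by
    have e1 : (∑ x, |f x| * (Z x) ^ (2 * q)) * h ^ V.card ≤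
        (T'.card : ℝ) ^ (2 * q) * (Δ + Δ2) ^ V.card := by
      have hnL : 0 < n ^ L.card := by positivity
      refine le_of_mul_le_mul_left ?_ hnL
      calc _ = n ^ L.card * (∑ x, |f x| * (Z x) ^ (2 * q)) * h ^ V.card := by ring
        _ ≤ _ := h5
    have e2 : (T'.card : ℝ) ^ (2 * q) ≤ w ^ (2 * q * k) * ∑ x, |f x| * (Z x) ^ (2 * q) := by
      calc (T'.card : ℝ) ^ (2 * q) ≤ (w ^ k * ∑ x, |f x| * |Z x|) ^ (2 * q) :=
            pow_le_pow_left₀ hT'pos.le h1 _
        _ = w ^ (2 * q * k) * (∑ x, |f x| * |Z x|) ^ (2 * q) := by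
            rw [mul_pow, ← pow_mul, mul_comm k (2 * q)]
        _ ≤ _ := mul_le_mul_of_nonneg_left h2 (by positivity)
    have hTp : 0 < (T'.card : ℝ) ^ (2 * q) := by positivity
    refine le_of_mul_le_mul_left ?_ hTp
    calc (T'.card : ℝ) ^ (2 * q) * h ^ V.card
        ≤ (w ^ (2 * q * k) * ∑ x, |f x| * (Z x) ^ (2 * q)) * h ^ V.card :=
          mul_le_mul_of_nonneg_right e2 (by positivity)
      _ = w ^ (2 * q * k) * ((∑ x, |f x| * (Z x) ^ (2 * q)) * h ^ V.card) := by ring
      _ ≤ w ^ (2 * q * k) * ((T'.card : ℝ) ^ (2 * q) * (Δ + Δ2) ^ V.card) :=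
          mul_le_mul_of_nonneg_left e1 (by positivity)
      _ = _ := by ring
  have h7 : M * V.card ≤ k := by
    have e1 : ((Δ + Δ2) * w ^ (2 * q * M)) ^ V.card ≤ h ^ V.card :=
      pow_le_pow_left₀ (by positivity) hh _
    have e2 := e1.trans h6
    rw [mul_pow, ← pow_mul, mul_comm] at e2
    have e3 : w ^ (2 * q * M * V.card) ≤ w ^ (2 * q * k) :=
      le_of_mul_le_mul_right e2 (by positivity)
    have e4 := (pow_le_pow_iff_right₀ hw).1 e3
    rw [mul_assoc] at e4
    exact Nat.le_of_mul_le_mul_left e4 (by omega)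
  calc (T.card : ℝ) ≤ (T'.card : ℝ) * σ ^ L.card := hTT'
    _ ≤ n ^ V.card * σ ^ L.card := mul_le_mul_of_nonneg_right hT'n (by positivity)
    _ ≤ (a ^ M) ^ V.card * σ ^ k := by
        refine mul_le_mul (pow_le_pow_left₀ hn1.le hM _) (pow_le_pow_right₀ hσ (by omega))
          (by positivity) (by positivity)
    _ = a ^ (M * V.card) * σ ^ k := by rw [← pow_mul]
    _ ≤ a ^ k * σ ^ k := by
        refine mul_le_mul_of_nonneg_right (pow_le_pow_right₀ ha h7) (by positivity)
    _ = (a * σ) ^ k := (mul_pow _ _ _).symm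

end Pool.Agent.H6.LF
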